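import Pool.Agent.N236.UB.Stm

/-!
UB/POW (project UB of helper236): powers are separated. By helper56.
-/

set_option autoImplicit false

open Polynomial

namespace Pool.Agent.N56.UB

open Pool.Agent.N236.UB

section

variable {L : Type} [Field L] {v : AbsoluteValue L ℝ}

theorem val_nat (hna : ∀ x y : L, v (x + y) ≤ max (v x) (v y)) (n : ℕ) : v (n : L) ≤ 1 := by
  induction n with
  | zero => simp
  | succ n ih =>
    rw [Nat.cast_succ]
    exact (hna _ _).trans (max_le ih (by simp))

theorem val_sub_le (hna : ∀ x y : L, v (x + y) ≤ max (v x) (v y)) (x y : L) :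
    v (x - y) ≤ max (v x) (v y) := by
  rw [sub_eq_add_neg]
  exact (hna _ _).trans (by rw [v.map_neg])

theorem val_sub_eq (hna : ∀ x y : L, v (x + y) ≤ max (v x) (v y)) {x y : L} (h : v y < v x) :
    v (x - y) = v x := by
  apply le_antisymm
  · exact (val_sub_le hna x y).trans (max_le le_rfl h.le)
  · by_contra hlt
    push Not at hlt
    have h1 : v x ≤ max (v (x - y)) (v y) := by
      have := hna (x - y) y
      rwa [sub_add_cancel] at this
    rcases le_max_iff.mp h1 with h2 | h2
    · linarith
    · linarith

theorem val_sub_eq' (hna : ∀ x y : L, v (x + y) ≤ max (v x) (v y)) {x y : L} (h : v y < v x) :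
    v (y - x) = v x := by
  rw [← v.map_neg, neg_sub]
  exact val_sub_eq hna h

end

theorem t_POW : S_POW := by
  intro L _ v p q e l hL hpp hl hpl hlq x y i hi
  obtain ⟨hna, hw, hp, O, k, _, _, red, hO, hred, hsurj, hcard⟩ := hL
  classical
  rw [Polynomial.eval_pow, Polynomial.eval_pow, Polynomial.eval_X, Polynomial.eval_X]
  -- the Taylor coefficient
  have hcoef : (taylor x ((X : L[X]) ^ l)).coeff i = x ^ (l - i) * (l.choose i : L) := by
    rw [Polynomial.taylor_pow, Polynomial.taylor_X, Polynomial.coeff_X_add_C_pow]
  rw [hcoef, map_mul, map_pow]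
  rcases lt_or_ge l i with hli | hli
  · rw [Nat.choose_eq_zero_of_lt hli]
    simp
  set R := max (v x) (v y) with hR
  have hR0 : 0 ≤ R := le_max_of_le_left (v.nonneg x)
  have hxy : v (y - x) ≤ R := (val_sub_le hna y x).trans (max_comm (v y) (v x)).le
  -- the main claim
  have main : R ^ (l - 1) * v (y - x) ≤ v (y ^ l - x ^ l) := by
    obtain ⟨l', rfl⟩ : ∃ l', l = l' + 1 := ⟨l - 1, by omega⟩
    rw [Nat.add_sub_cancel]
    rcases lt_trichotomy (v x) (v y) with hlt | heq | hgt
    · have h1 : R = v y := max_eq_right hlt.le
      have h2 : v (x ^ (l' + 1)) < v (y ^ (l' + 1)) := by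
        rw [map_pow, map_pow]
        exact pow_lt_pow_left₀ hlt (v.nonneg x) (by omega)
      rw [val_sub_eq hna h2, val_sub_eq hna hlt, h1, map_pow, pow_succ]
    · have h1 : R = v x := by rw [hR, heq, max_self]
      rcases eq_or_ne x 0 with hx | hx
      · have hy : y = 0 := by
          rw [hx, map_zero] at heq
          exact v.eq_zero.mp heq.symm
        rw [hx, hy]
        simp
      · have hvx : 0 < v x := v.pos hx
        set t : L := y / x with ht
        have hyt : y = x * t := by rw [ht]; field_simp
        have hvt : v t = 1 := by
          rw [ht, map_div₀, ← heq]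
          exact div_self hvx.ne'
        set t' : O := ⟨t, (hO _).2 hvt.le⟩ with ht'
        have ht1 : v (t - 1) ≤ 1 := by
          refine (val_sub_le hna t 1).trans (max_le hvt.le (by simp))
        have key : v (t - 1) ≤ v (t ^ (l' + 1) - 1) := by
          rcases ht1.lt_or_eq with hlt | heq1
          · -- `t` is congruent to one
            have hr1 : red t' = 1 := by
              have : red (t' - 1) = 0 := (hred _).2 (by
                have : ((t' - 1 : O) : L) = t - 1 := rfl
                rw [this]
                exact hlt)
              rw [map_sub, map_one] at this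
              exact sub_eq_zero.mp this
            set g : O := ∑ j ∈ Finset.range (l' + 1), t' ^ j with hg
            have hrg : red g = ((l' + 1 : ℕ) : k) := by
              rw [hg, map_sum]
              simp [map_pow, hr1]
            have hk : ((l' + 1 : ℕ) : k) ≠ 0 := by
              intro h0
              have hpk : (p : k) = 0 := by
                have : red (p : O) = 0 := (hred _).2 (by simpa using hp)
                simpa using this
              have hcop : IsCoprime (p : ℤ) ((l' + 1 : ℕ) : ℤ) :=
                Nat.isCoprime_iff_coprime.mpr ((Nat.Prime.coprime_iff_not_dvd hpp).mpr hpl)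
              obtain ⟨a, b, hab⟩ := hcop
              have h2 := congrArg (fun z : ℤ => (z : k)) hab
              simp only [Int.cast_add, Int.cast_mul, Int.cast_natCast, hpk, h0, mul_zero,
                add_zero, Int.cast_one] at h2
              exact zero_ne_one h2
            have hvg : v (g : L) = 1 := by
              apply le_antisymm ((hO _).1 g.2)
              by_contra hlt'
              push Not at hlt'
              exact hk (hrg ▸ (hred g).2 hlt')
            have hgt : (g : L) * (t - 1) = t ^ (l' + 1) - 1 := by
              have h1 : g * (t' - 1) = t' ^ (l' + 1) - 1 := by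
                rw [hg]
                exact geom_sum_mul t' (l' + 1)
              have := congrArg (fun z : O => (z : L)) h1
              simpa [ht'] using this
            rw [← hgt, map_mul, hvg, one_mul]
          · -- `t` is not congruent to one
            rw [heq1]
            by_contra hlt'
            push Not at hlt'
            have hu0 : red t' ≠ 0 := by
              intro h0
              have := (hred t').1 h0
              rw [show ((t' : O) : L) = t from rfl, hvt] at this
              exact lt_irrefl _ this
            have hu1 : red t' ≠ 1 := by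
              intro h0
              have h2 : red (t' - 1) = 0 := by rw [map_sub, map_one, h0, sub_self]
              have h3 := (hred _).1 h2
              rw [show ((t' - 1 : O) : L) = t - 1 from rfl, heq1] at h3
              exact lt_irrefl _ h3
            have hul : (red t') ^ (l' + 1) = 1 := by
              have h2 : red (t' ^ (l' + 1) - 1) = 0 := (hred _).2 (by
                have : ((t' ^ (l' + 1) - 1 : O) : L) = t ^ (l' + 1) - 1 := by
                  simp [ht']
                rw [this]
                exact hlt')
              rw [map_sub, map_one, map_pow] at h2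
              exact sub_eq_zero.mp h2
            have huq : (red t') ^ (q - 1) = 1 := by
              rw [← hcard]
              exact FiniteField.pow_card_sub_one_eq_one _ hu0
            have := pow_gcd_eq_one.mpr ⟨hul, huq⟩
            rw [hlq.gcd_eq_one, pow_one] at this
            exact hu1 this
        have e1 : y - x = x * (t - 1) := by rw [hyt]; ring
        have e2 : y ^ (l' + 1) - x ^ (l' + 1) = x ^ (l' + 1) * (t ^ (l' + 1) - 1) := by
          rw [hyt]; ring
        rw [h1, e1, e2, map_mul, map_mul, map_pow, ← mul_assoc, ← pow_succ]
        exact mul_le_mul_of_nonneg_left key (pow_nonneg hvx.le _)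
    · have h1 : R = v x := max_eq_left hgt.le
      have h2 : v (y ^ (l' + 1)) < v (x ^ (l' + 1)) := by
        rw [map_pow, map_pow]
        exact pow_lt_pow_left₀ hgt (v.nonneg y) (by omega)
      rw [val_sub_eq' hna h2, val_sub_eq' hna hgt, h1, map_pow, pow_succ]
  refine le_trans ?_ main
  obtain ⟨i', rfl⟩ : ∃ i', i = i' + 1 := ⟨i - 1, by omega⟩
  have hb : v ((l.choose (i' + 1) : ℕ) : L) ≤ 1 := val_nat hna _
  have h0 : 0 ≤ v (y - x) := v.nonneg _
  calc v x ^ (l - (i' + 1)) * v ((l.choose (i' + 1) : ℕ) : L) * v (y - x) ^ (i' + 1)
      ≤ R ^ (l - (i' + 1)) * 1 * (R ^ i' * v (y - x)) := by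
        rw [pow_succ]
        have e1 : v x ^ (l - (i' + 1)) ≤ R ^ (l - (i' + 1)) :=
          pow_le_pow_left₀ (v.nonneg x) (le_max_left _ _) _
        have e2 : v (y - x) ^ i' ≤ R ^ i' := pow_le_pow_left₀ h0 hxy _
        have e3 : 0 ≤ v ((l.choose (i' + 1) : ℕ) : L) := v.nonneg _
        have e4 : 0 ≤ v x ^ (l - (i' + 1)) := pow_nonneg (v.nonneg x) _
        have e5 : 0 ≤ v (y - x) ^ i' := pow_nonneg h0 _
        gcongr
    _ = R ^ (l - 1) * v (y - x) := by
        have : l - 1 = (l - (i' + 1)) + i' := by omega
        rw [this, pow_add]
        ring

end Pool.Agent.N56.UB
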