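import Pool.Agent.N236.UB.Stm

/-!
UB/PIG (project UB of helper236): pigeonhole for integral sequences. By helper56.
-/

set_option autoImplicit false

open Polynomial

namespace Pool.Agent.N56.UB

open Pool.Agent.N236.UB

theorem per_mul {L : Type} {y : ℤ → L} {N : ℕ} (h : Per y N) (t : ℕ) (n : ℤ) :
    y (n + (t : ℤ) * N) = y n := by
  induction t with
  | zero => simp
  | succ t ih =>
    have h1 : n + ((t + 1 : ℕ) : ℤ) * N = (n + (t : ℤ) * N) + N := by
      push_cast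
      ring
    rw [h1, h, ih]

theorem t_PIG : S_PIG := by
  intro L _ v p q e hL G δ y N hG hδ hN hper hy hrec
  obtain ⟨hna, hw, hp, O, k, _, _, red, hO, hred, hsurj, hcard⟩ := hL
  classical
  -- lifts to `O`
  have hGO : (↑G.coeffs : Set L) ⊆ (O : Set L) := by
    intro c hc
    obtain ⟨n, _, hn⟩ := Polynomial.mem_coeffs_iff.mp (Finset.mem_coe.mp hc)
    rw [hn]
    exact (hO _).2 (hG n)
  set G' : O[X] := G.toSubring O hGO with hG'
  set d : O := ⟨δ, (hO _).2 hδ⟩ with hd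
  set a : ℤ → O := fun n => ⟨y n, (hO _).2 (hy n)⟩ with ha
  have hO1 : ∀ n : ℤ, a (n + 1) + d * a (n - 1) = G'.eval (a n) := by
    intro n
    apply Subtype.ext
    have h1 : ((G'.eval (a n) : O) : L) = G.eval (y n) := by
      have h2 : (G'.map O.subtype) = G := Polynomial.map_toSubring G O hGO
      conv_rhs => rw [← h2]
      rw [Polynomial.eval_map]
      have h3 : y n = O.subtype (a n) := rfl
      rw [h3, Polynomial.eval₂_at_apply]
      rfl
    rw [h1]
    exact hrec n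
  set R : ℤ → k := fun n => red (a n) with hR
  have key : ∀ n : ℤ, R (n + 1) = (G'.map red).eval (R n) - red d * R (n - 1) := by
    intro n
    have h1 := congrArg red (hO1 n)
    rw [map_add, map_mul, ← Polynomial.eval₂_at_apply, ← Polynomial.eval_map] at h1
    exact eq_sub_of_add_eq h1
  -- pigeonhole
  have hcard2 : Fintype.card (k × k) < Fintype.card (Fin (q ^ 2 + 1)) := by
    rw [Fintype.card_prod, hcard, Fintype.card_fin]
    nlinarith
  obtain ⟨i₀, j₀, hij₀, he₀⟩ := Fintype.exists_ne_map_eq_of_card_lt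
    (fun t : Fin (q ^ 2 + 1) => (R ((t : ℕ) : ℤ), R (((t : ℕ) : ℤ) + 1))) hcard2
  obtain ⟨i, j, hij, hjq, he⟩ : ∃ i j : ℕ, i < j ∧ j ≤ q ^ 2 ∧
      (R (i : ℤ), R ((i : ℤ) + 1)) = (R (j : ℤ), R ((j : ℤ) + 1)) := by
    rcases lt_or_gt_of_ne (fun h => hij₀ (Fin.ext h) : (i₀ : ℕ) ≠ (j₀ : ℕ)) with h | h
    · exact ⟨i₀, j₀, h, Nat.lt_succ_iff.mp j₀.2, he₀⟩
    · exact ⟨j₀, i₀, h, Nat.lt_succ_iff.mp i₀.2, he₀.symm⟩
  have he1 : R (i : ℤ) = R (j : ℤ) := congrArg Prod.fst he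
  have he2 : R ((i : ℤ) + 1) = R ((j : ℤ) + 1) := congrArg Prod.snd he
  have hind : ∀ t : ℕ, R ((i : ℤ) + t) = R ((j : ℤ) + t) ∧
      R ((i : ℤ) + t + 1) = R ((j : ℤ) + t + 1) := by
    intro t
    induction t with
    | zero => exact ⟨by simpa using he1, by simpa using he2⟩
    | succ t ih =>
      have e1 : (i : ℤ) + ((t + 1 : ℕ) : ℤ) = (i : ℤ) + t + 1 := by push_cast; ring
      have e2 : (j : ℤ) + ((t + 1 : ℕ) : ℤ) = (j : ℤ) + t + 1 := by push_cast; ring
      rw [e1, e2]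
      refine ⟨ih.2, ?_⟩
      rw [key ((i : ℤ) + t + 1), key ((j : ℤ) + t + 1), ih.2]
      have e3 : (i : ℤ) + t + 1 - 1 = (i : ℤ) + t := by ring
      have e4 : (j : ℤ) + t + 1 - 1 = (j : ℤ) + t := by ring
      rw [e3, e4, ih.1]
  refine ⟨j - i, by omega, by omega, fun n => ?_⟩
  -- shift to the far right
  set T : ℕ := ((i : ℤ) - n).toNat with hT
  have hTN : (i : ℤ) ≤ n + (T : ℤ) * N := by
    have h1 : (i : ℤ) - n ≤ T := Int.self_le_toNat _
    have h2 : (T : ℤ) ≤ (T : ℤ) * N := by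
      have : (1 : ℤ) ≤ N := by exact_mod_cast hN
      nlinarith [Int.natCast_nonneg T]
    linarith
  obtain ⟨s, hs⟩ := Int.eq_ofNat_of_zero_le (sub_nonneg.mpr hTN)
  have h1 : R (n + (T : ℤ) * N) = R (n + (T : ℤ) * N + ((j - i : ℕ) : ℤ)) := by
    have e1 : n + (T : ℤ) * N = (i : ℤ) + s := by linarith
    have e2 : n + (T : ℤ) * N + ((j - i : ℕ) : ℤ) = (j : ℤ) + s := by
      rw [e1, Nat.cast_sub hij.le]
      ring
    rw [e2, e1]
    exact (hind s).1
  have hRper : ∀ n : ℤ, R (n + (T : ℤ) * N) = R n := by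
    intro n
    have : a (n + (T : ℤ) * N) = a n := Subtype.ext (per_mul hper T n)
    simp only [hR, this]
  have h2 : R (n + ((j - i : ℕ) : ℤ)) = R n := by
    rw [← hRper n, h1, ← hRper (n + ((j - i : ℕ) : ℤ))]
    congr 1
    ring
  have h3 : red (a (n + ((j - i : ℕ) : ℤ)) - a n) = 0 := by
    rw [map_sub]
    exact sub_eq_zero.mpr h2
  exact (hred _).1 h3

end Pool.Agent.N56.UB
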